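import Pool.Agent.Helper28.CQ.Stmts

set_option autoImplicit false

/-! # Module ZCOL: `Z^d` is `(d+1)`-colourable -/

namespace CQ

open Relation

namespace ZCOL

/-- if every point has a successor at distance `< M`, every integer is just after a point -/
theorem reach {d : ℕ} {M N : ℤ} (r : Fin (d + 1) → ℤ)
    (h : ∀ a, ∃ b, ∃ t : ℤ, 1 ≤ t ∧ t < M ∧ N ∣ r b - r a - t) :
    ∀ D : ℕ, 1 ≤ D → ∀ (a : Fin (d + 1)) (x : ℤ), N ∣ x - r a - D →
      ∃ b, ∃ t : ℤ, 1 ≤ t ∧ t < M ∧ N ∣ x - r b - t := by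
  intro D
  induction D using Nat.strong_induction_on with
  | _ D ih =>
    intro hD a x hx
    by_cases hDM : (D : ℤ) < M
    · exact ⟨a, D, by exact_mod_cast hD, hDM, hx⟩
    · push Not at hDM
      obtain ⟨b, t, h1, h2, h3⟩ := h a
      have hlt : (D - t.toNat : ℕ) < D := by omega
      refine ih (D - t.toNat) hlt (by omega) b x ?_
      have e : ((D - t.toNat : ℕ) : ℤ) = D - t := by omega
      rw [e]
      have := dvd_sub hx h3
      have e2 : x - r a - D - (r b - r a - t) = x - r b - (D - t) := by ring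
      rwa [e2] at this

theorem gap {d : ℕ} {M : ℕ} (hM : 0 < M) (r : Fin (d + 1) → ℤ) :
    ∃ a, ∀ b, ∀ t : ℤ, 1 ≤ t → t < M → ¬ (((d + 1) * M : ℕ) : ℤ) ∣ r b - r a - t := by
  by_contra hcon
  push Not at hcon
  set N : ℕ := (d + 1) * M with hN
  have hNpos : 0 < N := by positivity
  have : NeZero N := ⟨hNpos.ne'⟩
  have hcov : ∀ x : ℤ, ∃ b, ∃ t : ℤ, 1 ≤ t ∧ t < M ∧ (N : ℤ) ∣ x - r b - t := by
    intro x
    refine reach r hcon (((x - r 0 - 1) % N).toNat + 1) (by omega) 0 x ?_
    have h1 := Int.emod_nonneg (x - r 0 - 1) (by exact_mod_cast hNpos.ne' : (N : ℤ) ≠ 0)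
    have e : ((((x - r 0 - 1) % N).toNat + 1 : ℕ) : ℤ) = (x - r 0 - 1) % N + 1 := by omega
    rw [e]
    have h2 := Int.emod_add_mul_ediv (x - r 0 - 1) N
    exact ⟨(x - r 0 - 1) / N, by linarith⟩
  -- surjection onto `ZMod N`
  let F : Fin (d + 1) × Fin (M - 1) → ZMod N := fun p => ((r p.1 + p.2 + 1 : ℤ) : ZMod N)
  have hsurj : Function.Surjective F := by
    intro y
    obtain ⟨x, rfl⟩ := ZMod.intCast_surjective y
    obtain ⟨b, t, h1, h2, h3⟩ := hcov x
    refine ⟨(b, ⟨(t - 1).toNat, by omega⟩), ?_⟩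
    change ((r b + ((t - 1).toNat : ℕ) + 1 : ℤ) : ZMod N) = (x : ZMod N)
    have e : (((t - 1).toNat : ℕ) : ℤ) = t - 1 := by omega
    rw [e, ZMod.intCast_eq_intCast_iff_dvd_sub]
    have e2 : x - (r b + (t - 1) + 1) = x - r b - t := by ring
    rw [e2]
    exact h3
  have hcard := Fintype.card_le_of_surjective F hsurj
  rw [ZMod.card, Fintype.card_prod, Fintype.card_fin, Fintype.card_fin] at hcard
  have : (d + 1) * (M - 1) < (d + 1) * M := Nat.mul_lt_mul_of_pos_left (by omega) (by omega)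
  omega

theorem window (d M : ℕ) (hM : 0 < M) (p : V d) : ∃ (v : V d) (c : ℤ), c ≤ 0 ∧ 0 ≤ c + d * M ∧
    ∀ j, c ≤ p j - (d + 1) * M * v j ∧ p j - (d + 1) * M * v j ≤ c + d * M := by
  obtain ⟨a, ha⟩ := gap hM (Fin.cons 0 p : Fin (d + 1) → ℤ)
  set r : Fin (d + 1) → ℤ := Fin.cons 0 p with hr
  set N : ℕ := (d + 1) * M with hN
  have hNpos : 0 < N := by positivity
  have hN' : (N : ℤ) = (d + 1) * M := by rw [hN]; push_cast; ring
  have hNz : (N : ℤ) ≠ 0 := by exact_mod_cast hNpos.ne'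
  have hs : ∀ b, ∃ s w : ℤ, r b - r a = s + N * w ∧ (M : ℤ) ≤ s ∧ s ≤ N := by
    intro b
    have h1 := Int.emod_nonneg (r b - r a - 1) hNz
    have h2 := Int.emod_lt_of_pos (r b - r a - 1) (by exact_mod_cast hNpos : (0 : ℤ) < N)
    have h3 := Int.emod_add_mul_ediv (r b - r a - 1) N
    refine ⟨(r b - r a - 1) % N + 1, (r b - r a - 1) / N, by linarith, ?_, by omega⟩
    by_contra hlt
    push Not at hlt
    exact ha b ((r b - r a - 1) % N + 1) (by omega) hlt ⟨(r b - r a - 1) / N, by linarith⟩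
  choose s w hsw hsM hsN using hs
  have h0 := hsw 0
  have hr0 : r 0 = 0 := by rw [hr]; exact Fin.cons_zero _ _
  rw [hr0] at h0
  have hrj : ∀ j : Fin d, r j.succ = p j := fun j => by rw [hr]; exact Fin.cons_succ _ _ _
  refine ⟨fun j => w j.succ - w 0, M - s 0, by linarith [hsM 0], ?_, ?_⟩
  · have := hsN 0
    rw [hN'] at this
    linarith
  · intro j
    have hj := hsw j.succ
    rw [hrj] at hj
    have e : p j - (d + 1) * M * (w j.succ - w 0) = s j.succ - s 0 := by
      rw [← hN']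
      linear_combination hj - h0
    have h1 := hsM j.succ
    have h2 := hsN j.succ
    rw [hN'] at h2
    change M - s 0 ≤ p j - (d + 1) * M * (w j.succ - w 0) ∧
      p j - (d + 1) * M * (w j.succ - w 0) ≤ M - s 0 + d * M
    rw [e]
    constructor <;> linarith

theorem step {d : ℕ} {R : ℕ} {p p' v v' : V d} {c c' : ℤ} (hpp : dI p p' ≤ R)
    (hc : c ≤ 0) (hc2 : 0 ≤ c + d * (R + 1))
    (hv : ∀ j, c ≤ p j - (d + 1) * (R + 1) * v j ∧ p j - (d + 1) * (R + 1) * v j ≤ c + d * (R + 1))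
    (hc' : c' ≤ 0) (hc2' : 0 ≤ c' + d * (R + 1))
    (hv' : ∀ j, c' ≤ p' j - (d + 1) * (R + 1) * v' j ∧
      p' j - (d + 1) * (R + 1) * v' j ≤ c' + d * (R + 1))
    (hs : ((d : ℤ) + 1) ∣ ∑ j, v j - ∑ j, v' j) : v = v' := by
  rw [dI_le] at hpp
  have hd : (0 : ℤ) ≤ d := by positivity
  have hR : (0 : ℤ) ≤ R := by positivity
  have hdR : (0 : ℤ) ≤ d * R := by positivity
  set u : V d := fun j => v' j - v j with hu
  have hN : ∀ j, (p j - (d + 1) * (R + 1) * v j) - (p' j - (d + 1) * (R + 1) * v' j)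
      = (p j - p' j) + (d + 1) * (R + 1) * u j := by
    intro j; simp only [hu]; ring
  have hp : ∀ j, -(R : ℤ) ≤ p j - p' j ∧ p j - p' j ≤ R := by
    intro j
    have := hpp j
    omega
  set y : V d := fun j => p j - (d + 1) * (R + 1) * v j with hy
  set y' : V d := fun j => p' j - (d + 1) * (R + 1) * v' j with hy'
  have h1 : ∀ j, u j ≤ 1 := by
    intro j
    by_contra h
    push Not at h
    have h2 := hN j
    have h3 : 2 * ((d + 1) * (R + 1)) ≤ (d + 1) * (R + 1) * u j := by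
      have : ((d : ℤ) + 1) * (R + 1) * 2 ≤ (d + 1) * (R + 1) * u j :=
        mul_le_mul_of_nonneg_left (by omega) (by positivity)
      linarith
    have h4 := hv j
    have h5 := hv' j
    have h6 := hp j
    nlinarith
  have h2 : ∀ j, -1 ≤ u j := by
    intro j
    by_contra h
    push Not at h
    have h2 := hN j
    have h3 : (d + 1) * (R + 1) * u j ≤ (d + 1) * (R + 1) * (-2) :=
        mul_le_mul_of_nonneg_left (by omega) (by positivity)
    have h4 := hv j
    have h5 := hv' j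
    have h6 := hp j
    nlinarith
  have h3 : ∀ j k, u j = 1 → u k = -1 → False := by
    intro j k hj hk
    have a1 := hN j
    have a2 := hN k
    rw [hj] at a1
    rw [hk] at a2
    have a3 := hv j
    have a4 := hv k
    have a5 := hv' j
    have a6 := hv' k
    have a7 := hp j
    have a8 := hp k
    nlinarith
  have hsum : ∑ j, u j = -(∑ j, v j - ∑ j, v' j) := by
    simp only [hu, Finset.sum_sub_distrib]; ring
  have hdvd : ((d : ℤ) + 1) ∣ ∑ j, u j := by rw [hsum]; exact (dvd_neg).2 hs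
  have hzero : ∑ j, u j = 0 := by
    apply Int.eq_zero_of_abs_lt_dvd hdvd
    have : |∑ j, u j| ≤ ∑ j : Fin d, (1 : ℤ) :=
      (Finset.abs_sum_le_sum_abs _ _).trans (Finset.sum_le_sum fun j _ =>
        abs_le.2 ⟨h2 j, h1 j⟩)
    rw [Finset.sum_const, Finset.card_univ, Fintype.card_fin] at this
    simp at this
    omega
  have hall : ∀ j, u j = 0 := by
    by_cases hex : ∃ k, u k = -1
    · obtain ⟨k, hk⟩ := hex
      have hle : ∀ j, u j ≤ 0 := by
        intro j
        by_contra h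
        exact h3 j k (by have := h1 j; omega) hk
      intro j
      exact (Finset.sum_eq_zero_iff_of_nonpos fun j _ => hle j).1 hzero j (Finset.mem_univ j)
    · have hge : ∀ j, 0 ≤ u j := by
        intro j
        by_contra h
        exact hex ⟨j, by have := h2 j; omega⟩
      intro j
      exact (Finset.sum_eq_zero_iff_of_nonneg fun j _ => hge j).1 hzero j (Finset.mem_univ j)
  funext j
  have := hall j
  simp only [hu] at this
  omega

end ZCOL

open ZCOL in
theorem mod_ZCOL : S_ZCOL := by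
  intro d
  refine ⟨fun R => 2 * (d * (R + 1)), fun R => ?_⟩
  choose v c hc hc2 hv using fun p : V d => window d (R + 1) (Nat.succ_pos R) p
  refine ⟨fun p => ⟨((∑ j, v p j) % ((d : ℤ) + 1)).toNat, ?_⟩, ?_⟩
  · have h1 := Int.emod_nonneg (∑ j, v p j) (by omega : (d : ℤ) + 1 ≠ 0)
    have h2 := Int.emod_lt_of_pos (∑ j, v p j) (by omega : (0 : ℤ) < (d : ℤ) + 1)
    omega
  · intro x y _ hxy
    have hconst : v x = v y := by
      induction hxy with
      | refl => rfl
      | @tail b e _ hbc ih =>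
        rw [ih]
        obtain ⟨-, -, h1, h2⟩ := hbc
        have h3 := congrArg Fin.val h2
        simp only at h3
        have k1 := Int.emod_nonneg (∑ j, v b j) (by omega : (d : ℤ) + 1 ≠ 0)
        have k2 := Int.emod_nonneg (∑ j, v e j) (by omega : (d : ℤ) + 1 ≠ 0)
        have h4 : (∑ j, v b j) % ((d : ℤ) + 1) = (∑ j, v e j) % ((d : ℤ) + 1) := by omega
        have h5 : ((d : ℤ) + 1) ∣ ∑ j, v b j - ∑ j, v e j := (Int.ModEq.dvd (h4.symm : _ ≡ _ [ZMOD _]))
        have a1 := hc2 b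
        have a2 := hc2 e
        have a3 := hv b
        have a4 := hv e
        push_cast at a1 a2 a3 a4
        exact step h1 (hc b) a1 a3 (hc e) a2 a4 h5
    rw [dI_le]
    intro j
    have a1 := hc2 x
    have a2 := hc2 y
    have a3 := hv x j
    have a4 := hv y j
    have a5 := hc x
    have a6 := hc y
    rw [hconst] at a3
    push_cast at a1 a2 a3 a4
    have e : ((2 * (d * (R + 1)) : ℕ) : ℤ) = 2 * (d * (R + 1)) := by push_cast; ring
    have k : |x j - y j| ≤ ((2 * (d * (R + 1)) : ℕ) : ℤ) := by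
      rw [e, abs_le]
      constructor <;> linarith
    rw [Int.abs_eq_natAbs] at k
    exact_mod_cast k

end CQ
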